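import Pool.Agent.H32.Pack2

set_option autoImplicit false

open MeasureTheory

namespace Pool.Agent.Results.MP_5eb27c_an.PackNull

/-- In a locally compact Hausdorff group, every Borel set of Haar measure zero is countably
equidecomposable, with Borel pieces and left translations, with a subset of any given non-empty
open set. -/
theorem result {G : Type*} [Group G] [TopologicalSpace G] [IsTopologicalGroup G]
    [LocallyCompactSpace G] [T2Space G] [MeasurableSpace G] [BorelSpace G]
    (μ : Measure G) [μ.IsHaarMeasure] [μ.Regular] (E U : Set G) (hE : MeasurableSet E)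
    (h0 : μ E = 0) (hU : IsOpen U) (hne : U.Nonempty) :
    ∃ F ⊆ U, ∃ (A B : ℕ → Set G) (g : ℕ → G),
      (∀ i, MeasurableSet (A i)) ∧ (∀ i, MeasurableSet (B i)) ∧
      Pairwise (fun i j => Disjoint (A i) (A j)) ∧ Pairwise (fun i j => Disjoint (B i) (B j)) ∧
      ⋃ i, A i = E ∧ ⋃ i, B i = F ∧ ∀ i, (fun x => g i * x) '' A i = B i := by
  obtain ⟨c, g, h1, h2, h3⟩ := H32.PK.main μ hE h0 hU hne
  have hA : ∀ i, MeasurableSet (E ∩ c ⁻¹' {i}) := fun i => hE.inter (h1 (measurableSet_singleton i))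
  refine ⟨_, ?_, fun i => E ∩ c ⁻¹' {i}, fun i => (fun x => g i * x) '' (E ∩ c ⁻¹' {i}), g, hA,
    fun i => (measurableEmbedding_mulLeft (g i)).measurableSet_image.2 (hA i),
    fun i j k => Set.disjoint_left.2 fun x a b => k (a.2.symm.trans b.2),
    fun i j k => Set.disjoint_left.2 ?_, ?_, rfl, fun _ => rfl⟩
  · refine Set.iUnion_subset fun i => ?_
    rintro _ ⟨x, ⟨hx, rfl⟩, rfl⟩
    exact h3 x hx
  · rintro _ ⟨x, ⟨hx, rfl⟩, rfl⟩ ⟨y, ⟨hy, rfl⟩, h⟩
    exact k (congrArg c (h2 hy hx h)).symm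
  · ext x
    simp

end Pool.Agent.Results.MP_5eb27c_an.PackNull
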